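import Mathlib

/-!
A Schwarz-Pick estimate and holomorphic dependence of derivatives on parameters.
-/

set_option autoImplicit false

namespace Pool.Agent.Q156.HM

open Complex Metric Set Filter Topology

/-- Schwarz-Pick for maps of the unit disc into a disc `|w - c| ≤ R`, with `f 0 = 0`. -/
theorem schwarz_pick {f : ℂ → ℂ} {c R : ℝ} (hc : 0 ≤ c) (hcR : c < R)
    (hf : DifferentiableOn ℂ f (ball 0 1)) (h0 : f 0 = 0)
    (hb : ∀ l ∈ ball (0 : ℂ) 1, ‖f l - c‖ ≤ R) {l : ℂ} (hl : l ∈ ball (0 : ℂ) 1) :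
    ‖f l‖ ≤ R * (1 - (c / R) ^ 2) * ‖l‖ / (1 - c / R * ‖l‖) := by
  have hR : 0 < R := hc.trans_lt hcR
  obtain ⟨γ, hγ⟩ : ∃ γ, γ = c / R := ⟨_, rfl⟩
  have hγ0 : 0 ≤ γ := by rw [hγ]; positivity
  have hγ1 : γ < 1 := by rw [hγ, div_lt_one hR]; exact hcR
  have hcγ : c = γ * R := by rw [hγ]; field_simp
  rw [← hγ]
  set φ : ℂ → ℂ := fun l => f l / ((R * (1 - γ ^ 2) : ℝ) + γ * f l) with hφ
  have hden : ∀ l ∈ ball (0 : ℂ) 1, ((R * (1 - γ ^ 2) : ℝ) : ℂ) + γ * f l ≠ 0 := by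
    intro l hl h
    have h1 : (R : ℂ) = -(γ * (f l - c)) := by
      have : ((R * (1 - γ ^ 2) : ℝ) : ℂ) + γ * f l = R + γ * (f l - c) := by
        rw [hcγ]; push_cast; ring
      rw [this] at h
      linear_combination h
    have h2 : R = ‖(R : ℂ)‖ := by rw [Complex.norm_real, Real.norm_of_nonneg hR.le]
    rw [h1, norm_neg, norm_mul, Complex.norm_real, Real.norm_of_nonneg hγ0] at h2
    have h3 := hb l hl
    nlinarith
  have hφd : DifferentiableOn ℂ φ (ball 0 1) :=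
    hf.div ((hf.const_mul _).const_add _) fun l hl => hden l hl
  have hφb : ∀ l ∈ ball (0 : ℂ) 1, ‖φ l‖ ≤ 1 := by
    intro l hl
    simp only [hφ]
    rw [norm_div, div_le_one (norm_pos_iff.2 (hden l hl))]
    have h1 := hb l hl
    -- |f| ≤ |R (1-γ²) + γ f| from |f - c| ≤ R
    have h2 : ‖f l - c‖ ^ 2 ≤ R ^ 2 := pow_le_pow_left₀ (norm_nonneg _) h1 2
    refine le_of_sq_le_sq ?_ (norm_nonneg _)
    rw [← Complex.normSq_eq_norm_sq, Complex.normSq_apply] at h2 ⊢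
    rw [← Complex.normSq_eq_norm_sq, Complex.normSq_apply]
    simp only [sub_re, sub_im, add_re, add_im, ofReal_re, ofReal_im, re_ofReal_mul, im_ofReal_mul,
      sub_zero, zero_add] at h2 ⊢
    rw [hcγ] at h2
    nlinarith [mul_nonneg (show 0 ≤ 1 - γ ^ 2 by nlinarith) (sub_nonneg.2 h2)]
  have hφ0 : φ 0 = 0 := by simp [hφ, h0]
  have h1 : ‖φ l‖ ≤ ‖l‖ := Complex.norm_le_norm_of_mapsTo_ball hφd
    (fun l hl => mem_closedBall_zero_iff.2 (hφb l hl)) hφ0 (mem_ball_zero_iff.1 hl)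
  have hn : ‖l‖ < 1 := mem_ball_zero_iff.1 hl
  -- f = R (1 - γ²) φ / (1 - γ φ)
  have h2 : f l * (1 - γ * φ l) = (R * (1 - γ ^ 2) : ℝ) * φ l := by
    obtain ⟨D, hD⟩ : ∃ D : ℂ, D = ((R * (1 - γ ^ 2) : ℝ) : ℂ) + γ * f l := ⟨_, rfl⟩
    have hD0 : D ≠ 0 := by rw [hD]; exact hden l hl
    have e1 : φ l = f l / D := by rw [hD]
    have e2 : ((R * (1 - γ ^ 2) : ℝ) : ℂ) = D - γ * f l := by rw [hD]; ring
    rw [e1, e2]
    field_simp
  have h3 : 1 - γ * ‖l‖ ≤ ‖(1 : ℂ) - γ * φ l‖ := by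
    have h4 := norm_sub_norm_le (1 : ℂ) (γ * φ l)
    rw [norm_one, norm_mul, Complex.norm_real, Real.norm_of_nonneg hγ0] at h4
    have h5 : γ * ‖φ l‖ ≤ γ * ‖l‖ := mul_le_mul_of_nonneg_left h1 hγ0
    linarith
  have h4 : 0 < 1 - γ * ‖l‖ := by nlinarith [norm_nonneg l]
  rw [le_div_iff₀ h4]
  have h5 : ‖f l‖ * ‖(1 : ℂ) - γ * φ l‖ = R * (1 - γ ^ 2) * ‖φ l‖ := by
    rw [← norm_mul, h2, norm_mul, Complex.norm_real, Real.norm_of_nonneg]
    have : 0 ≤ 1 - γ ^ 2 := by nlinarith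
    positivity
  have h6 : 0 ≤ R * (1 - γ ^ 2) := mul_nonneg hR.le (by nlinarith)
  calc ‖f l‖ * (1 - γ * ‖l‖) ≤ ‖f l‖ * ‖(1 : ℂ) - γ * φ l‖ :=
        mul_le_mul_of_nonneg_left h3 (norm_nonneg _)
    _ = R * (1 - γ ^ 2) * ‖φ l‖ := h5
    _ ≤ R * (1 - γ ^ 2) * ‖l‖ := mul_le_mul_of_nonneg_left h1 h6

/-- a bound for difference quotients -/
theorem quot_bound {g : ℂ → ℂ} {z ε : ℂ} {ρ B : ℝ} (hρ : 0 < ρ) (hg : DifferentiableOn ℂ g (ball z ρ))
    (hB : ∀ x ∈ ball z ρ, ‖g x‖ ≤ B) (hε : ‖ε‖ < ρ) (hε0 : ε ≠ 0) :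
    ‖(g (z + ε) - g z) / ε - deriv g z‖ ≤ 2 * (2 * B / ρ) / ρ * ‖ε‖ := by
  have hz : z ∈ ball z ρ := mem_ball_self hρ
  have hmaps : MapsTo g (ball z ρ) (closedBall (g z) (2 * B)) := by
    intro x hx
    rw [mem_closedBall_iff_norm]
    have := norm_sub_le (g x) (g z)
    linarith [hB x hx, hB z hz]
  set q := dslope g z with hq
  have hqd : DifferentiableOn ℂ q (ball z ρ) :=
    (Complex.differentiableOn_dslope (isOpen_ball.mem_nhds hz)).2 hg
  have hqb : ∀ x ∈ ball z ρ, ‖q x‖ ≤ 2 * B / ρ := fun x hx =>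
    Complex.norm_dslope_le_div_of_mapsTo_ball hg hmaps hx
  have hmaps2 : MapsTo q (ball z ρ) (closedBall (q z) (2 * (2 * B / ρ))) := by
    intro x hx
    rw [mem_closedBall_iff_norm]
    have := norm_sub_le (q x) (q z)
    linarith [hqb x hx, hqb z hz]
  have hzε : z + ε ∈ ball z ρ := by
    rw [mem_ball_iff_norm, add_sub_cancel_left]
    exact hε
  have h1 := Complex.dist_le_div_mul_dist_of_mapsTo_ball hqd hmaps2 hzε
  have e1 : q (z + ε) = (g (z + ε) - g z) / ε := by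
    rw [hq, dslope_of_ne _ (by simpa using hε0), slope_def_field, add_sub_cancel_left]
  have e2 : q z = deriv g z := by rw [hq, dslope_same]
  rw [dist_eq_norm, dist_eq_norm, add_sub_cancel_left, e1, e2] at h1
  exact h1

/-- derivatives depend holomorphically on parameters -/
theorem deriv_hol {h : ℂ → ℂ → ℂ} {z : ℂ} {ρ B : ℝ} (hρ : 0 < ρ)
    (hg : ∀ l ∈ ball (0 : ℂ) 1, DifferentiableOn ℂ (h l) (ball z ρ))
    (hB : ∀ l ∈ ball (0 : ℂ) 1, ∀ x ∈ ball z ρ, ‖h l x‖ ≤ B)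
    (hl : ∀ x ∈ ball z ρ, DifferentiableOn ℂ (fun l => h l x) (ball 0 1)) :
    DifferentiableOn ℂ (fun l => deriv (h l) z) (ball 0 1) := by
  have hB0 : 0 ≤ B := (norm_nonneg _).trans
    (hB 0 (mem_ball_self one_pos) z (mem_ball_self hρ))
  set ε : ℕ → ℂ := fun n => ((ρ / (n + 2) : ℝ) : ℂ) with hε
  have hεn : ∀ n, ‖ε n‖ = ρ / (n + 2) := fun n => by
    simp only [hε]
    rw [Complex.norm_real, Real.norm_of_nonneg (by positivity)]
  have hεlt : ∀ n, ‖ε n‖ < ρ := fun n => by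
    rw [hεn, div_lt_iff₀ (by positivity)]
    nlinarith [(Nat.cast_nonneg n : (0 : ℝ) ≤ n)]
  have hε0 : ∀ n, ε n ≠ 0 := fun n => by
    rw [← norm_pos_iff, hεn]; positivity
  have hεt : Tendsto (fun n => 2 * (2 * B / ρ) / ρ * ‖ε n‖) atTop (𝓝 0) := by
    have h1 : Tendsto (fun n : ℕ => ρ / ((n : ℝ) + 2)) atTop (𝓝 0) :=
      tendsto_const_nhds.div_atTop (tendsto_natCast_atTop_atTop.atTop_add tendsto_const_nhds)
    have h2 := h1.const_mul (2 * (2 * B / ρ) / ρ)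
    rw [mul_zero] at h2
    refine h2.congr fun n => ?_
    rw [hεn]
  have hunif : TendstoUniformlyOn (fun n l => (h l (z + ε n) - h l z) / ε n)
      (fun l => deriv (h l) z) atTop (ball 0 1) := by
    rw [Metric.tendstoUniformlyOn_iff]
    intro e he
    filter_upwards [(tendsto_order.1 hεt).2 e he] with n hn l hl'
    rw [dist_comm, dist_eq_norm]
    exact (quot_bound hρ (hg l hl') (hB l hl') (hεlt n) (hε0 n)).trans_lt hn
  refine hunif.tendstoLocallyUniformlyOn.differentiableOn ?_ isOpen_ball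
  refine Eventually.of_forall fun n => ?_
  refine DifferentiableOn.div_const (DifferentiableOn.sub (hl _ ?_) (hl _ (mem_ball_self hρ))) _
  rw [mem_ball_iff_norm, add_sub_cancel_left]
  exact hεlt n

end Pool.Agent.Q156.HM
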